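import Pool.Agent.Lib.MP_feb729_gt.Proj

open Pool.Agent.Lib.MP_feb729_gt

theorem Pool.Agent.Results.MP_feb729_gt.Rasmussen.result :
    ∃ (γ : Fin 3 → ℝ → Space) (φ : ℂ → Space) (ψ : ℝ × ℝ → Space) (D : Diagram 6),
      IsLink γ ∧ IsDisc φ (γ 0) ∧ IsAnnulus ψ (γ 1) (γ 2) ∧ (∀ z p, φ z ≠ ψ p) ∧
        IsDiagramOf D γ ∧ linkDet D 0 = 4 ∧ ∀ s, IsRasmussen D s ↔ s = -2 :=
  ⟨link, disc, ann, D0, isLink, isDisc, isAnnulus, disc_ne_ann, isDiagramOf, linkDet_D0,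
    rasmussen_D0⟩
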