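import Pool.Agent.Lib.MP_feb729_gt.GridGauss

open Pool.Agent.Lib.MP_feb729_gt

theorem Pool.Agent.Results.MP_feb729_gt.Tau.result : ∀ t : ℚ, t = 0 ∨ t = 1 →
    ∃ (γ : Fin 3 → ℝ → Space) (φ : ℂ → Space) (ψ : ℝ × ℝ → Space) (D : Diagram 6) (G : Grid 6),
      IsLink γ ∧ IsDisc φ (γ 0) ∧ IsAnnulus ψ (γ 1) (γ 2) ∧ (∀ z p, φ z ≠ ψ p) ∧
        IsDiagramOf D γ ∧ linkDet D 0 = 4 ∧ IsGridOf G D ∧ IsTauTop G t ∧ IsTauBot G (t - 1) := by
  rintro t (rfl | rfl)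
  · exact ⟨link, disc, ann, D0, G0, isLink, isDisc, isAnnulus, disc_ne_ann, isDiagramOf,
      linkDet_D0, isGridOf_G0, tau_G0⟩
  · exact ⟨fun i t => refl (link i t), fun z => refl (disc z), fun p => refl (ann p), D0.mirror,
      G1, isLink.refl, isDisc.refl, isAnnulus.refl, fun z p h => disc_ne_ann z p (refl_inj h),
      isDiagramOf.refl, linkDet_mirror, isGridOf_G1, tau_G1⟩
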